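import Pool.Agent.R536.TW.Main

/-!
# Membership for DFAs with translucent words in time `O(n^{3/2})`

For every DFA with translucent words there is a word RAM program that decides membership in time
`O(n √n)`, where `n` is the length of the input. So quadratic time is not optimal.
-/

set_option autoImplicit false

namespace Pool.Agent.Results.MP_cf558f_lc.SubquadraticMembership

open Pool.Agent.R536.TW Pool.Agent.H588R2.Bank Filter Asymptotics

/-- The time bound `C (n + 1) (√n + 1)`. -/
noncomputable def bound (C n : ℕ) : ℝ := C * ((n : ℝ) + 1) * (Real.sqrt n + 1)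

theorem bound_isLittleO (C : ℕ) :
    (bound C) =o[atTop] (fun n : ℕ => (n : ℝ) ^ 2) := by
  rw [isLittleO_iff]
  intro c hc
  have h1 : Tendsto (fun n : ℕ => (n : ℝ)) atTop atTop := tendsto_natCast_atTop_atTop
  have h2 : Tendsto (fun n : ℕ => Real.sqrt n) atTop atTop := Real.tendsto_sqrt_atTop.comp h1
  filter_upwards [h2.eventually_ge_atTop (4 * C / c), eventually_ge_atTop 1] with n hn hn1
  have hn1' : (1 : ℝ) ≤ n := by exact_mod_cast hn1
  have hs1 : 1 ≤ Real.sqrt n := Real.one_le_sqrt.2 hn1'
  have hss : Real.sqrt n * Real.sqrt n = n := Real.mul_self_sqrt (by linarith)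
  have hC : (4 * C : ℝ) ≤ Real.sqrt n * c := (div_le_iff₀ hc).1 hn
  have hCn : (0 : ℝ) ≤ C := Nat.cast_nonneg C
  have hb0 : 0 ≤ bound C n := by unfold bound; positivity
  rw [Real.norm_of_nonneg hb0, Real.norm_of_nonneg (by positivity)]
  have hb : bound C n ≤ C * (2 * n) * (2 * Real.sqrt n) := by
    unfold bound
    apply mul_le_mul _ (by linarith) (by positivity) (by positivity)
    exact mul_le_mul_of_nonneg_left (by linarith) hCn
  calc bound C n ≤ C * (2 * n) * (2 * Real.sqrt n) := hb
    _ = (4 * C) * (n * Real.sqrt n) := by ring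
    _ ≤ (Real.sqrt n * c) * (n * Real.sqrt n) := by
        exact mul_le_mul_of_nonneg_right hC (by positivity)
    _ = c * (n * (Real.sqrt n * Real.sqrt n)) := by ring
    _ = c * (n : ℝ) ^ 2 := by rw [hss]; ring

open Classical in
/-- For every DFA with translucent words `A` there are a word RAM program `P` and a constant `C`
such that for every input `x` of length `n` and every word length `w` with `2 ^ w ≥ C (n + 1)`,
`P` halts on `x` within `C (n + 1) (√n + 1)` steps with output `1` if `A` accepts `x` and `0`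
otherwise; and `C (n + 1) (√n + 1)` is `o(n²)`. -/
theorem result {Q : Type} [Finite Q] {m : ℕ} (A : DFAwtw Q m) :
    ∃ (P : List Instr) (C : ℕ),
      (∀ (x : List (Fin m)) (w : ℕ), C * (x.length + 1) ≤ 2 ^ w →
        HaltsWithin w P (start x) (bound C x.length) (if x ∈ A.lang then 1 else 0)) ∧
      (bound C) =o[atTop] (fun n : ℕ => (n : ℝ) ^ 2) := by
  have : Nonempty (Z A) := ⟨z0 A A.q₀⟩
  obtain ⟨T⟩ := exists_tb (Z A) m (fun z => Pool.Agent.R536.TW.Halted z.1)
    (fun z => ∃ p, z.1 = .hit p) (fun z => Final A z.1) (nx A) (zact A)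
  have hDge := T.D_ge
  have hD4 : 4 ≤ T.D * T.D := Nat.mul_le_mul hDge hDge
  refine ⟨(prog T).compile 0, 100 * (T.D * T.D), ?_, bound_isLittleO _⟩
  intro x w hw
  have hx1 : 100 * (T.D * T.D) ≤ 100 * (T.D * T.D) * (x.length + 1) :=
    Nat.le_mul_of_pos_right _ (by omega)
  have hx2 : 400 * (x.length + 1) ≤ 100 * (T.D * T.D) * (x.length + 1) :=
    Nat.mul_le_mul_right _ (by omega)
  have hs1 : Nat.sqrt x.length * Nat.sqrt x.length ≤ x.length := Nat.sqrt_le x.length
  have hs2 : Nat.sqrt x.length ≤ x.length := Nat.sqrt_le_self x.length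
  have hexp : (Nat.sqrt x.length + 1) * (Nat.sqrt x.length + 1) + (Nat.sqrt x.length + 1)
      = Nat.sqrt x.length * Nat.sqrt x.length + 3 * Nat.sqrt x.length + 2 := by ring
  obtain ⟨s', t, he, ht, h0, hacc⟩ := tr_prog T x (w := w) (by omega) (by rw [hexp]; omega)
    (by omega)
  have hc := compile_correct w ((prog T).compile 0) he 0 (At.self _)
  refine ⟨t, ?_, ?_, ?_⟩
  · refine le_trans (Nat.cast_le.2 ht) ?_
    unfold bound
    push_cast
    have h3 : (Nat.sqrt x.length : ℝ) ≤ Real.sqrt x.length := Real.nat_sqrt_le_real_sqrt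
    have h4 : (100 * ((T.D : ℝ) * T.D) * (((x.length : ℝ) + 1) * ((Nat.sqrt x.length : ℝ) + 1)))
        = 100 * ((T.D : ℝ) * T.D) * ((x.length : ℝ) + 1) * ((Nat.sqrt x.length : ℝ) + 1) := by
      ring
    rw [h4]
    exact mul_le_mul_of_nonneg_left (by linarith) (by positivity)
  · right
    unfold run
    rw [hc]
    simp [Cmd.length_compile]
  · unfold run
    rw [hc]
    show s'.reg 0 = _
    split_ifs with h
    · exact hacc.2 h
    · have : s'.reg 0 ≠ 1 := fun e => h (hacc.1 e)
      omega

end Pool.Agent.Results.MP_cf558f_lc.SubquadraticMembership
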